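import Pool.Agent.ETC.Base
import Pool.Agent.Helper66.ETC.Conj
import Pool.Graph.R_seed8.Y419.EP.Inert

set_option autoImplicit false

/-! # Elementary Type Conjecture: nontrivial inertia at the places -/

namespace Pool.Agent.Helper7.ETC

open Pool.Agent.ETC

section

variable {F K : Type} [Field F] [Field K] [Algebra F K]

/-- the decomposition group is closed -/
theorem dec_closed [IsGalois F K] (V : ValuationSubring K) :
    IsClosed (Dec F V : Set (K ≃ₐ[F] K)) := by
  rw [← isOpen_compl_iff, isOpen_iff_mem_nhds]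
  intro σ hσ
  rw [Set.mem_compl_iff, SetLike.mem_coe, mem_Dec] at hσ
  push Not at hσ
  obtain ⟨x, hx⟩ := hσ
  have h1 : IsOpen (MulAction.stabilizer (K ≃ₐ[F] K) x : Set (K ≃ₐ[F] K)) :=
    stabilizer_isOpen_of_isIntegral x
  have h2 : IsOpen ((fun τ : K ≃ₐ[F] K => σ⁻¹ * τ) ⁻¹'
      (MulAction.stabilizer (K ≃ₐ[F] K) x : Set (K ≃ₐ[F] K))) :=
    h1.preimage (continuous_const_mul σ⁻¹)
  refine Filter.mem_of_superset (h2.mem_nhds ?_) ?_
  · show σ⁻¹ * σ ∈ MulAction.stabilizer (K ≃ₐ[F] K) x
    rw [inv_mul_cancel]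
    exact one_mem _
  · intro τ hτ
    have h3 : (σ⁻¹ * τ) x = x := hτ
    have h4 : τ x = σ x := by
      rw [AlgEquiv.mul_apply] at h3
      conv_rhs => rw [← h3]
      exact (σ.apply_symm_apply (τ x)).symm
    rw [Set.mem_compl_iff, SetLike.mem_coe, mem_Dec]
    intro h5
    have h6 := h5 x
    rw [h4] at h6
    rcases hx with ⟨h7, h8⟩ | ⟨h7, h8⟩
    · exact h8 (h6.1 h7)
    · exact h7 (h6.2 h8)

/-- automorphisms over the decomposition field are in the decomposition group -/
theorem mem_dec_of_fixed [IsGalois F K] (V : ValuationSubring K)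
    (σ : K ≃ₐ[IntermediateField.fixedField (Dec F V)] K) : σ.restrictScalars F ∈ Dec F V := by
  have h1 := InfiniteGalois.fixingSubgroup_fixedField
    (⟨Dec F V, dec_closed V⟩ : ClosedSubgroup (K ≃ₐ[F] K))
  have h2 : σ.restrictScalars F ∈ (IntermediateField.fixedField (Dec F V)).fixingSubgroup := by
    rw [IntermediateField.mem_fixingSubgroup_iff]
    intro x hx
    exact σ.commutes (⟨x, hx⟩ : IntermediateField.fixedField (Dec F V))
  have h3 : (IntermediateField.fixedField (Dec F V)).fixingSubgroup = Dec F V := h1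
  rwa [h3] at h2

end

/-- **INERT.** -/
theorem t_INERT : S_V1 → S_INERT := by
  intro hV1 p hp F K _ _ _ ζ hζ hP W hTop hnu
  have hgal := hP.gal
  have hpp : p.Prime := hp.out
  obtain ⟨c, hc⟩ := hnu
  obtain ⟨y, hy⟩ := hP.root (algebraMap F K (c : F))
  let L := IntermediateField.fixedField (Dec F W)
  have hζL : ∃ ξ : L, IsPrimitiveRoot ξ p :=
    ⟨algebraMap F L ζ, hζ.map_of_injective (algebraMap F L).injective⟩
  have hc0 : (algebraMap F L (c : F)) ≠ 0 := by
    rw [Ne, map_eq_zero]
    exact c.ne_zero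
  obtain ⟨σ, hσ1, hσ⟩ := Pool.Agent.Y419.EP.t_INERT' p hpp L K hζL W (fun σ x => by
    exact mem_Dec.1 (mem_dec_of_fixed W σ) x) (algebraMap F L (c : F)) y hc0 (by
    rw [hy, ← IsScalarTower.algebraMap_apply]) (by
    intro f hf h1 h2
    have hfK : (f : K) ≠ 0 := fun h => hf (Subtype.ext h)
    have hfx : ∀ σ ∈ Dec F W, σ (f : K) = f :=
      fun σ hσ => (IntermediateField.mem_fixedField_iff _ _).1 f.2 σ hσ
    obtain ⟨g, m, hm, hgm⟩ := hV1 p F K ζ hζ hP W hTop (f : K) hfK hfx
    have hm1 : W.valuation m < 1 := by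
      refine lt_of_lt_of_le hm ?_
      refine pow_le_one' ?_ p
      rw [le_one_iff]
      exact lam_le hpp.ne_zero hζ.pow_eq_one _
    have h3 : W.valuation (f : K) = W.valuation (algebraMap F K (g : F)) := by
      rw [hgm, map_mul, W.valuation.map_one_add_of_lt hm1, mul_one]
    have h4 : W.valuation (algebraMap L K (algebraMap F L (c : F) * f ^ p)) = 1 := by
      apply le_antisymm
      · exact (W.valuation_le_one_iff _).2 h1
      · have h5 := (W.valuation_le_one_iff _).2 h2
        rw [map_inv₀, map_inv₀] at h5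
        have h6 : W.valuation (algebraMap L K (algebraMap F L (c : F) * f ^ p)) ≠ 0 := by
          rw [Valuation.ne_zero_iff, Ne, map_eq_zero]
          exact mul_ne_zero hc0 (pow_ne_zero _ hf)
        exact (inv_le_one₀ (zero_lt_iff.2 h6)).1 h5
    have h5 : W.valuation (algebraMap F K ((c * g ^ p : Fˣ) : F)) = 1 := by
      rw [← h4, map_mul, map_mul, map_pow, map_pow, ← IsScalarTower.algebraMap_apply]
      rw [Units.val_mul, Units.val_pow_eq_pow_val, map_mul, map_mul, map_pow, map_pow]
      congr 2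
      exact h3.symm
    have h7 : (W.comap (algebraMap F K)).valuation ((c * g ^ p : Fˣ) : F) = 1 := by
      apply le_antisymm
      · rw [← le_one_iff]
        exact h5.le
      · have h8 := (le_iff_le W 1 ((c * g ^ p : Fˣ) : F)).1 (by rw [map_one, map_one, h5])
        rwa [map_one] at h8
    exact hc g h7)
  refine ⟨σ.restrictScalars F, mem_dec_of_fixed W σ, fun h => hσ1 ?_, fun x hx => hσ x hx⟩
  ext x
  have := congrArg (fun τ : K ≃ₐ[F] K => τ x) h
  exact this

end Pool.Agent.Helper7.ETC
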